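import Pool.Agent.T2h44.EC3

/-!
# MP_b75bf2_nt : essential components are extraordinary along sets of bounded doubling

All sets are sets of natural numbers containing `0`, `σ` is Mathlib's `schnirelmannDensity` (with
classical decidability), and `W A y` is the finite set of the elements of `A` in `[0, y]`.
Let `B` be an essential component.  There is a constant `C` (depending on `B` only) such that
`log (1 / σ(A)) ≤ C (σ(A + B) / σ(A) + K ^ 4) log (2 + log (1 / σ(A)))` for every `A` with
`σ(A) > 0` and every `K` with `|A_y + A_y| ≤ K |A_y|` for all `y`, where `A_y = A ∩ [0, y]`.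
In particular `σ(A + B) / σ(A) → ∞` as `σ(A) → 0`, uniformly on the sets `A` whose initial segments
have doubling at most `K` (`Pool.Agent.T2h44.EC.qual`).
-/

set_option autoImplicit false
open Classical
open scoped Pointwise

namespace Pool.Agent.Results.MP_b75bf2_nt.BoundedDoubling

open Pool.Agent.T2h44.EC

theorem result :
    ∀ B : Set ℕ, 0 ∈ B →
      (∀ A : Set ℕ, 0 ∈ A → 0 < schnirelmannDensity A → schnirelmannDensity A < 1 →
        schnirelmannDensity A < schnirelmannDensity (A + B)) →
      ∃ C : ℝ, 0 < C ∧ ∀ (A : Set ℕ) (K : ℝ), 0 ∈ A → 0 < schnirelmannDensity A →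
        (∀ y : ℕ, ((W A y + W A y).card : ℝ) ≤ K * (W A y).card) →
        Real.log (1 / schnirelmannDensity A) ≤
          C * (schnirelmannDensity (A + B) / schnirelmannDensity A + K ^ 4) *
            Real.log (2 + Real.log (1 / schnirelmannDensity A)) :=
  fun _ hB hess => main hB hess

end Pool.Agent.Results.MP_b75bf2_nt.BoundedDoubling
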